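import Mathlib
import Pool.Agent.Lib.MP_1ce8ed_ag.Defs
import Pool.Agent.Lib.MP_1ce8ed_ag.Perf3

/-!
# The Gorenstein pairing on `I/J` factors over multiplication

`P` is a regular local `K`-algebra of dimension `n = m + 1` (`n ≥ 1` is automatic because
`dim P/J = 1`), `J = (f₁, ..., f_n)` with `dim P/J = 1`, `I = ⋃_k (J : 𝔪ᵏ)` is a radical ideal.

* `J = (g₁, ..., g_{n-1}, h)` for a regular sequence `g` and an element `h`.
* For all such `(g, h)`, with `q = (g₁, ..., g_{n-1})`: the module `Ext^{n-1}(P/q, P)` is cyclic,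
  and for each of its generators `E` there is an isomorphism `κ : I/J → Extⁿ(I/J, P)` which sends
  the class of `b ∈ I` to the Yoneda product of `I/J → P/J`, the class of
  `0 → J/q → P/q → P/J → 0`, the homomorphism `J/q → P/q`, `h ↦ b`, and `E`.
* For each `K`-linear functional `τ` on `Hⁿ_𝔪(P) = colim_k Extⁿ(P/𝔪ᵏ, P)` the local duality
  pairing `([a], [b]) ↦ τ([a] · κ[b])` factors over `I/J × I/J → I²/IJ`, `([a], [b]) ↦ [ab]`.
  If `K` is the residue field and `τ` is not zero on the image of `Extⁿ(P/𝔪, P)` (such as the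
  trace), then the pairing is non-degenerate.
* If `K` is the residue field and `I ≠ J`, the socle of `I²/IJ` is one-dimensional over `K`.
-/

namespace Pool.Agent.Results.MP_1ce8ed_ag.PairingFactors

open IsLocalRing CategoryTheory Abelian RingTheory.Sequence Pool.Agent.Lib.MP_1ce8ed_ag

universe u v

theorem result {P : Type u} [CommRing P] [IsRegularLocalRing P]
    {K : Type v} [Field K] [Algebra K P]
    (m : ℕ) (hdim : ringKrullDim P = (m + 1 : ℕ))
    (f : Fin (m + 1) → P) (J : Ideal P) (hf : J = Ideal.span (Set.range f))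
    (hJ : ringKrullDim (P ⧸ J) = 1)
    (I : Ideal P) (hI : ∀ a, a ∈ I ↔ ∃ k : ℕ, ∀ r ∈ maximalIdeal P ^ k, r * a ∈ J)
    (hrad : I.IsRadical) :
    (∃ (g : Fin m → P) (h : P), LinkGens J g h) ∧
    (∀ (g : Fin m → P) (h : P), LinkGens J g h →
      ∀ (hq : Ideal.span (Set.range g) ≤ J) (hh : h ∈ J),
      (∃ E : Ext (MQ (Ideal.span (Set.range g))) (MP P) m, IsGen E) ∧
      ∀ E : Ext (MQ (Ideal.span (Set.range g))) (MP P) m, IsGen E →
        ∃ κ : MI I J ≃ₗ[P] Ext (MI I J) (MP P) (m + 1), IsLinkIso hq hh E κ ∧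
          ∀ τ : LCM P (m + 1) →+ K, IsKLin τ →
            FactorsOverMul κ τ ∧
            (Function.Bijective (algebraMap K (ResidueField P)) → SocleNonzero τ →
              IsNondeg κ τ)) ∧
    (Function.Bijective (algebraMap K (ResidueField P)) → I ≠ J →
      SocleOneDim K (MI (I * I) (I * J))) := by
  have hgood : ∃ (g : Fin m → P) (h : P), LinkGens J g h := by
    subst hf
    exact exists_good' hdim f hJ
  refine ⟨hgood, ?_, ?_⟩
  · rintro g h ⟨hreg, hJgh⟩ hq hh
    subst hJgh
    have S : Setup g h I := setup_of_hyp hdim hJ hI hrad g h hreg rfl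
    refine ⟨⟨kosE g hreg, fun E' => kosE_gen g S.gmem hreg E'⟩, ?_⟩
    intro E hE
    obtain ⟨κ₀, hκ₀⟩ := S.exists_kappa E
    have hinj := S.kappa_inj E (hE (kosE g S.reg)) κ₀ hκ₀
    have hsurj : Function.Surjective κ₀ :=
      surj_of_length κ₀ hinj (Module.length_ne_top_iff.2 S.finlen)
        (length_ext_le S.dim S.finlen)
    refine ⟨LinearEquiv.ofBijective κ₀ ⟨hinj, hsurj⟩, ?_, ?_⟩
    · intro b hb
      obtain ⟨l, hl⟩ := S.exists_lam hb
      exact ⟨⟨ModuleCat.ofHom l, hl⟩, fun l hl => hκ₀ b hb l.hom hl⟩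
    · intro τ hτ
      refine ⟨?_, ?_⟩
      · obtain ⟨β, hβ⟩ := S.factor E κ₀ hκ₀ τ hτ
        refine ⟨β.toAddMonoidHom, ?_, ?_⟩
        · intro c x
          obtain ⟨x, rfl⟩ := Submodule.Quotient.mk_surjective _ x
          have h1 : β (c • Submodule.Quotient.mk x) = c * β (Submodule.Quotient.mk x) :=
            map_smul β c _
          rw [← Submodule.Quotient.mk_smul] at h1
          have h2 : c • x = algebraMap K P c • x := by
            rw [algebraMap_smul]
          rw [h2] at h1
          exact h1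
        · intro a b ha hb k hk
          exact hβ ⟨a, ha⟩ ⟨b, hb⟩ k hk
      · intro hK hτ1 b hb
        have h1 : κ₀ b = 0 := local_duality S.dim hK.2 τ hτ hτ1 S.finlen (κ₀ b) hb
        exact hinj (h1.trans (map_zero κ₀).symm)
  · intro hK hne
    obtain ⟨g, h, hreg, hJgh⟩ := hgood
    subst hJgh
    have S : Setup g h I := setup_of_hyp hdim hJ hI hrad g h hreg rfl
    obtain ⟨u, hu, hu'⟩ := S.exists_socle fun hle => hne (le_antisymm hle S.le)
    refine ⟨clI _ u.1 u.2, ?_, ?_, ?_⟩
    · intro h0
      exact hu ((Submodule.Quotient.mk_eq_zero (Submodule.comap (Submodule.subtype (I * I))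
        (I * (Ideal.span (Set.range g) ⊔ Ideal.span {h})))).1 h0)
    · intro r hr
      exact (Submodule.Quotient.mk_eq_zero (Submodule.comap (Submodule.subtype (I * I))
        (I * (Ideal.span (Set.range g) ⊔ Ideal.span {h})))).2 (hu' r hr)
    · intro w hw
      obtain ⟨w, rfl⟩ := Submodule.Quotient.mk_surjective _ w
      have hw' : ∀ r ∈ maximalIdeal P,
          r * (w : P) ∈ I * (Ideal.span (Set.range g) ⊔ Ideal.span {h}) := by
        intro r hr
        exact (Submodule.Quotient.mk_eq_zero (Submodule.comap (Submodule.subtype (I * I))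
          (I * (Ideal.span (Set.range g) ⊔ Ideal.span {h})))).1 (hw r hr)
      rcases S.socle_le hu' hw' with h1 | ⟨r, hr⟩
      · exact absurd h1 hu
      · obtain ⟨c, hc⟩ := hK.2 (residue P r)
        refine ⟨c, ?_⟩
        apply (Submodule.Quotient.eq _).2
        show (w : P) - algebraMap K P c * (u : P) ∈
          I * (Ideal.span (Set.range g) ⊔ Ideal.span {h})
        have h2 : r - algebraMap K P c ∈ maximalIdeal P := by
          rw [← residue_eq_zero_iff, map_sub, ← hc, sub_eq_zero]
          rfl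
        have h3 : (w : P) - algebraMap K P c * (u : P) =
            ((w : P) - r * u) + (r - algebraMap K P c) * u := by
          ring
        rw [h3]
        exact Ideal.add_mem _ hr (hu' _ h2)

end Pool.Agent.Results.MP_1ce8ed_ag.PairingFactors
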